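import Pool.Agent.Helper96.Ab.Goals

/-! Packet A of MP_5ff3c6_ag (normal version): the infinite product of `(1 + b_i t)`. -/

open scoped Topology
open Filter Polynomial

namespace Pool.Agent.Helper96.Ab

universe u

namespace H3

variable {ι : Type u} (b : ι → ℂ)

/-- `∏_{i ∈ s} (1 + b_i X)` -/
noncomputable def P (s : Finset ι) : ℂ[X] := ∏ i ∈ s, (1 + C (b i) * X)

/-- the power series of the logarithmic derivative -/
noncomputable def S (s : Finset ι) : PowerSeries ℂ :=
  PowerSeries.mk fun i => (-1) ^ i * ∑ a ∈ s, b a ^ (i + 1)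

theorem P_coeff_zero (s : Finset ι) : (P b s).coeff 0 = 1 := by
  classical
  unfold P
  rw [Polynomial.coeff_zero_prod]
  apply Finset.prod_eq_one
  intro i _
  simp

theorem P_insert [DecidableEq ι] {a : ι} {s : Finset ι} (h : a ∉ s) :
    P b (insert a s) = (1 + C (b a) * X) * P b s := by
  unfold P
  rw [Finset.prod_insert h]

theorem geo (z : ℂ) : (1 + PowerSeries.C z * PowerSeries.X) *
    PowerSeries.mk (fun i => (-1) ^ i * z ^ (i + 1)) = PowerSeries.C z := by
  ext n
  rw [add_mul, one_mul, map_add, PowerSeries.coeff_mk, mul_assoc, PowerSeries.coeff_C_mul]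
  rcases n with _ | n
  · simp
  · rw [PowerSeries.coeff_succ_X_mul, PowerSeries.coeff_mk, PowerSeries.coeff_C]
    simp
    ring

theorem newton_ps (s : Finset ι) :
    ((derivative (P b s) : ℂ[X]) : PowerSeries ℂ) = (P b s : PowerSeries ℂ) * S b s := by
  classical
  induction s using Finset.induction_on with
  | empty =>
    have : S b ∅ = 0 := by
      ext n; simp [S]
    rw [this, mul_zero]
    simp [P]
  | insert a s h ih =>
    have hS : S b (insert a s) = S b s + PowerSeries.mk (fun i => (-1) ^ i * b a ^ (i + 1)) := by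
      ext n
      simp only [S, PowerSeries.coeff_mk, map_add]
      rw [Finset.sum_insert h]; ring
    rw [P_insert b h, hS, derivative_mul]
    have hd : derivative (1 + C (b a) * X) = C (b a) := by simp
    rw [hd]
    have g := geo (b a)
    simp only [Polynomial.coe_add, Polynomial.coe_mul, Polynomial.coe_one, Polynomial.coe_C,
      Polynomial.coe_X]
    rw [ih]
    linear_combination (-(P b s : PowerSeries ℂ)) * g

theorem newton (s : Finset ι) (j : ℕ) : (P b s).coeff (j + 1) = (1 / ((j : ℂ) + 1)) *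
      ∑ i ∈ Finset.range (j + 1), (-1) ^ i * (P b s).coeff (j - i) * ∑ a ∈ s, b a ^ (i + 1) := by
  have h := congrArg (PowerSeries.coeff j) (newton_ps b s)
  rw [Polynomial.coeff_coe, Polynomial.coeff_derivative, mul_comm (P b s : PowerSeries ℂ),
    PowerSeries.coeff_mul, Finset.Nat.sum_antidiagonal_eq_sum_range_succ_mk] at h
  have hj : ((j : ℂ) + 1) ≠ 0 := by exact_mod_cast Nat.succ_ne_zero j
  rw [eq_comm, one_div, inv_mul_eq_iff_eq_mul₀ hj, mul_comm, h]
  apply Finset.sum_congr rfl
  intro i _
  simp only [S, PowerSeries.coeff_mk, Polynomial.coeff_coe]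
  ring

theorem summable_pow (hb : Summable b) (i : ℕ) : Summable fun a => b a ^ (i + 1) := by
  have h1 : Summable fun a => ‖b a‖ := hb.norm
  have h2 : ∀ᶠ a in cofinite, ‖b a‖ < 1 := by
    have := h1.tendsto_cofinite_zero
    exact this.eventually (gt_mem_nhds one_pos)
  refine Summable.of_norm_bounded_eventually h1 ?_
  filter_upwards [h2] with a ha
  rw [norm_pow, pow_succ]
  exact mul_le_of_le_one_left (norm_nonneg _) (pow_le_one₀ (norm_nonneg _) ha.le)

theorem tendsto_coeff (E : ℕ → ℂ) (hb : Summable b) (h0 : E 0 = 1)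
    (hE : ∀ j, E (j + 1) = (1 / ((j : ℂ) + 1)) *
      ∑ i ∈ Finset.range (j + 1), (-1) ^ i * E (j - i) * ∑' a, b a ^ (i + 1)) (j : ℕ) :
    Tendsto (fun s : Finset ι => (P b s).coeff j) atTop (𝓝 (E j)) := by
  induction j using Nat.strong_induction_on with
  | _ j ih =>
    rcases j with _ | j
    · simp only [P_coeff_zero, h0]
      exact tendsto_const_nhds
    · rw [hE]
      simp only [newton]
      apply Tendsto.const_mul
      apply tendsto_finsetSum
      intro i hi
      apply Tendsto.mul
      · apply Tendsto.const_mul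
        exact ih _ (by omega)
      · exact (summable_pow b hb i).hasSum

theorem bound_partial (s : Finset ι) (R : ℝ) (hR : 0 ≤ R) (J : ℕ) :
    ∑ j ∈ Finset.range J, ‖(P b s).coeff j‖ * R ^ j ≤ ∏ i ∈ s, (1 + R * ‖b i‖) := by
  classical
  induction s using Finset.induction_on generalizing J with
  | empty =>
    rcases J with _ | J
    · simp
    · rw [Finset.sum_range_succ']
      simp [P, Polynomial.coeff_one]
  | insert a s h ih =>
    rw [Finset.prod_insert h, P_insert b h]
    have hp : 0 ≤ ∏ i ∈ s, (1 + R * ‖b i‖) := Finset.prod_nonneg fun i _ => by positivity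
    rcases J with _ | J
    · simp only [Finset.range_zero, Finset.sum_empty]; positivity
    · rw [Finset.sum_range_succ']
      have hc : ∀ j, ((1 + C (b a) * X) * P b s).coeff (j + 1)
          = (P b s).coeff (j + 1) + b a * (P b s).coeff j := by
        intro j
        rw [add_mul, one_mul, coeff_add, mul_assoc, coeff_C_mul, coeff_X_mul]
      have hc0 : ((1 + C (b a) * X) * P b s).coeff 0 = (P b s).coeff 0 := by
        rw [add_mul, one_mul, coeff_add, mul_assoc, coeff_C_mul]
        simp
      rw [hc0]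
      have h1 : ∑ j ∈ Finset.range J, ‖((1 + C (b a) * X) * P b s).coeff (j + 1)‖ * R ^ (j + 1)
          ≤ ∑ j ∈ Finset.range J, ‖(P b s).coeff (j + 1)‖ * R ^ (j + 1)
            + R * ‖b a‖ * ∑ j ∈ Finset.range J, ‖(P b s).coeff j‖ * R ^ j := by
        rw [Finset.mul_sum, ← Finset.sum_add_distrib]
        apply Finset.sum_le_sum
        intro j _
        rw [hc]
        have := norm_add_le ((P b s).coeff (j + 1)) (b a * (P b s).coeff j)
        rw [norm_mul] at this
        calc ‖(P b s).coeff (j + 1) + b a * (P b s).coeff j‖ * R ^ (j + 1)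
            ≤ (‖(P b s).coeff (j + 1)‖ + ‖b a‖ * ‖(P b s).coeff j‖) * R ^ (j + 1) :=
              mul_le_mul_of_nonneg_right this (by positivity)
          _ = _ := by ring
      have h2 := ih (J + 1)
      rw [Finset.sum_range_succ'] at h2
      have h3 := mul_le_mul_of_nonneg_left (ih J) (by positivity : 0 ≤ R * ‖b a‖)
      calc _ ≤ (∑ j ∈ Finset.range J, ‖(P b s).coeff (j + 1)‖ * R ^ (j + 1)
            + R * ‖b a‖ * ∑ j ∈ Finset.range J, ‖(P b s).coeff j‖ * R ^ j)
            + ‖(P b s).coeff 0‖ * R ^ 0 := by gcongr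
        _ ≤ ∏ i ∈ s, (1 + R * ‖b i‖) + R * ‖b a‖ * ∏ i ∈ s, (1 + R * ‖b i‖) := by linarith
        _ = _ := by ring

theorem bound_coeff (hb : Summable b) (s : Finset ι) (R : ℝ) (hR : 0 ≤ R) (j : ℕ) :
    ‖(P b s).coeff j‖ * R ^ j ≤ Real.exp (R * ∑' a, ‖b a‖) := by
  have h1 := bound_partial b s R hR (j + 1)
  have h2 : ‖(P b s).coeff j‖ * R ^ j ≤ ∑ j ∈ Finset.range (j + 1), ‖(P b s).coeff j‖ * R ^ j :=
    Finset.single_le_sum (f := fun j => ‖(P b s).coeff j‖ * R ^ j)
      (fun i _ => by positivity) (Finset.mem_range.2 (Nat.lt_succ_self j))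
  have h3 : ∏ i ∈ s, (1 + R * ‖b i‖) ≤ Real.exp (∑ i ∈ s, R * ‖b i‖) := by
    rw [Real.exp_sum]
    apply Finset.prod_le_prod
    · intro i _; positivity
    · intro i _
      have := Real.add_one_le_exp (R * ‖b i‖)
      linarith
  have h4 : ∑ i ∈ s, R * ‖b i‖ ≤ R * ∑' a, ‖b a‖ := by
    rw [← Finset.mul_sum]
    exact mul_le_mul_of_nonneg_left (hb.norm.sum_le_tsum s (fun i _ => norm_nonneg _)) hR
  exact h2.trans (h1.trans (h3.trans (Real.exp_le_exp.2 h4)))

theorem tsum_eval (s : Finset ι) (t : ℂ) :
    ∑' j, (P b s).coeff j * t ^ j = ∏ i ∈ s, (1 + b i * t) := by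
  have h : ∑' j, (P b s).coeff j * t ^ j
      = ∑ j ∈ Finset.range ((P b s).natDegree + 1), (P b s).coeff j * t ^ j := by
    apply tsum_eq_sum
    intro j hj
    rw [Finset.mem_range, not_lt] at hj
    rw [Polynomial.coeff_eq_zero_of_natDegree_lt (by omega), zero_mul]
  rw [h, ← Polynomial.eval_eq_sum_range]
  unfold P
  rw [Polynomial.eval_prod]
  apply Finset.prod_congr rfl
  intro i _
  simp

end H3

open H3 in
theorem stmtA : StmtA.{u} := by
  intro ι b E hb h0 hE
  constructor
  · intro R hR j
    have h1 := ((tendsto_coeff b E hb h0 hE j).norm.mul_const (R ^ j))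
    exact le_of_tendsto' h1 fun s => bound_coeff b hb s R hR j
  · intro a ha
    set t : ℂ := -1 / b a with ht
    have hpos : 0 < 2 * ‖t‖ + 1 := by positivity
    have hsum : Summable fun j : ℕ =>
        Real.exp ((2 * ‖t‖ + 1) * ∑' a, ‖b a‖) * (‖t‖ / (2 * ‖t‖ + 1)) ^ j := by
      apply Summable.mul_left
      apply summable_geometric_of_lt_one (by positivity)
      rw [div_lt_one hpos]
      linarith [norm_nonneg t]
    have key : Tendsto (fun s : Finset ι => ∑' j, (P b s).coeff j * t ^ j) atTop
        (𝓝 (∑' j, E j * t ^ j)) := by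
      refine tendsto_tsum_of_dominated_convergence hsum ?_ ?_
      · intro j
        exact (tendsto_coeff b E hb h0 hE j).mul_const _
      · refine Eventually.of_forall fun s j => ?_
        have := bound_coeff b hb s (2 * ‖t‖ + 1) hpos.le j
        rw [norm_mul, norm_pow, div_pow, mul_div_assoc', le_div_iff₀ (by positivity)]
        calc ‖(P b s).coeff j‖ * ‖t‖ ^ j * (2 * ‖t‖ + 1) ^ j
            = (‖(P b s).coeff j‖ * (2 * ‖t‖ + 1) ^ j) * ‖t‖ ^ j := by ring
          _ ≤ _ := mul_le_mul_of_nonneg_right this (by positivity)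
    have key2 : Tendsto (fun s : Finset ι => ∑' j, (P b s).coeff j * t ^ j) atTop (𝓝 0) := by
      apply tendsto_const_nhds.congr'
      filter_upwards [eventually_ge_atTop ({a} : Finset ι)] with s hs
      rw [tsum_eval]
      symm
      apply Finset.prod_eq_zero (i := a) (hs (Finset.mem_singleton_self a))
      rw [ht]; field_simp; ring
    exact tendsto_nhds_unique key key2

end Pool.Agent.Helper96.Ab
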